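import Pool.Agent.Q188.FC.StmG
import Pool.Agent.W933.FV.GM

/-!
# FC-NCS: the noise operator
-/

set_option autoImplicit false

open MeasureTheory

namespace Pool.Agent.Q26.FC.NCS

open Pool.Agent.W716.FV (E gam gd)
open Pool.Agent.W933.FVGM Pool.Agent.Q188.FC

/-! ### rotations of pairs -/

/-- the rotation (a reflection) with coefficients `a`, `b` -/
def rot {n : ℕ} (a b : ℝ) : (E n × E n) →ₗ[ℝ] (E n × E n) where
  toFun p := (a • p.1 + b • p.2, b • p.1 - a • p.2)
  map_add' p q := by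
    ext1
    · simp only [Prod.fst_add, Prod.snd_add, smul_add]
      abel
    · simp only [Prod.fst_add, Prod.snd_add, smul_add]
      abel
  map_smul' c p := by
    ext1
    · simp only [Prod.smul_fst, Prod.smul_snd, RingHom.id_apply, smul_add]
      rw [smul_comm a c, smul_comm b c]
    · simp only [Prod.smul_fst, Prod.smul_snd, RingHom.id_apply, smul_sub]
      rw [smul_comm a c, smul_comm b c]

lemma rot_rot {n : ℕ} {a b : ℝ} (h : a ^ 2 + b ^ 2 = 1) (p : E n × E n) :
    rot a b (rot a b p) = p := by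
  have e1 : a * a + b * b = 1 := by rw [← h]; ring
  ext1
  · change a • (a • p.1 + b • p.2) + b • (b • p.1 - a • p.2) = p.1
    have : a • (a • p.1 + b • p.2) + b • (b • p.1 - a • p.2) = (a * a + b * b) • p.1 := by
      module
    rw [this, e1, one_smul]
  · change b • (a • p.1 + b • p.2) - a • (b • p.1 - a • p.2) = p.2
    have : b • (a • p.1 + b • p.2) - a • (b • p.1 - a • p.2) = (a * a + b * b) • p.2 := by
      module
    rw [this, e1, one_smul]

lemma rot_norm {n : ℕ} {a b : ℝ} (h : a ^ 2 + b ^ 2 = 1) (p : E n × E n) :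
    ‖(rot a b p).1‖ ^ 2 + ‖(rot a b p).2‖ ^ 2 = ‖p.1‖ ^ 2 + ‖p.2‖ ^ 2 := by
  change ‖a • p.1 + b • p.2‖ ^ 2 + ‖b • p.1 - a • p.2‖ ^ 2 = ‖p.1‖ ^ 2 + ‖p.2‖ ^ 2
  rw [norm_add_sq_real, norm_sub_sq_real, norm_smul, norm_smul, norm_smul, norm_smul,
    inner_smul_left, inner_smul_left, inner_smul_right, inner_smul_right]
  simp only [mul_pow, Real.norm_eq_abs, sq_abs, conj_trivial]
  linear_combination (‖p.1‖ ^ 2 + ‖p.2‖ ^ 2) * h

lemma rot_cont {n : ℕ} (a b : ℝ) : Continuous (rot (n := n) a b) := by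
  change Continuous fun p : E n × E n => (a • p.1 + b • p.2, b • p.1 - a • p.2)
  fun_prop

lemma mp_vol {n : ℕ} {a b : ℝ} (h : a ^ 2 + b ^ 2 = 1) :
    MeasurePreserving (rot (n := n) a b) ((volume : Measure (E n)).prod volume)
      ((volume : Measure (E n)).prod volume) := by
  have h1 : LinearMap.det (rot (n := n) a b) * LinearMap.det (rot (n := n) a b) = 1 := by
    rw [← LinearMap.det_comp]
    have : (rot (n := n) a b).comp (rot a b) = LinearMap.id := by
      refine LinearMap.ext fun p => ?_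
      exact rot_rot h p
    rw [this, LinearMap.det_id]
  have h0 : LinearMap.det (rot (n := n) a b) ≠ 0 := by
    intro h2
    rw [h2] at h1
    norm_num at h1
  refine ⟨(rot_cont a b).measurable, ?_⟩
  rw [Measure.map_linearMap_addHaar_eq_smul_addHaar _ h0]
  have h3 : |(LinearMap.det (rot (n := n) a b))⁻¹| = 1 := by
    rw [abs_inv]
    have : |LinearMap.det (rot (n := n) a b)| * |LinearMap.det (rot (n := n) a b)| = 1 := by
      rw [← abs_mul, h1, abs_one]
    have h4 := abs_nonneg (LinearMap.det (rot (n := n) a b))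
    have h5 : |LinearMap.det (rot (n := n) a b)| = 1 := by nlinarith
    rw [h5, inv_one]
  rw [h3, ENNReal.ofReal_one, one_smul]

lemma mp_rot {n : ℕ} {a b : ℝ} (h : a ^ 2 + b ^ 2 = 1) :
    MeasurePreserving (rot (n := n) a b) ((gam n).prod (gam n)) ((gam n).prod (gam n)) := by
  have hprod : (gam n).prod (gam n) = ((volume : Measure (E n)).prod volume).withDensity
      (fun p => ENNReal.ofReal (gd n p.1) * ENNReal.ofReal (gd n p.2)) := by
    unfold gam
    exact prod_withDensity (meas_ofReal_gd n) (meas_ofReal_gd n)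
  have hdm : Measurable fun p : E n × E n =>
      ENNReal.ofReal (gd n p.1) * ENNReal.ofReal (gd n p.2) :=
    ((meas_ofReal_gd n).comp measurable_fst).mul ((meas_ofReal_gd n).comp measurable_snd)
  have hinv : ∀ p : E n × E n, ENNReal.ofReal (gd n (rot a b p).1) *
      ENNReal.ofReal (gd n (rot a b p).2) =
        ENNReal.ofReal (gd n p.1) * ENNReal.ofReal (gd n p.2) := by
    intro p
    rw [← ENNReal.ofReal_mul (gd_nonneg n _), ← ENNReal.ofReal_mul (gd_nonneg n _)]
    congr 1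
    have key : ∀ x y : E n, gd n x * gd n y = (√(2 * Real.pi))⁻¹ ^ n * (√(2 * Real.pi))⁻¹ ^ n *
        Real.exp (-(‖x‖ ^ 2 + ‖y‖ ^ 2) / 2) := by
      intro x y
      unfold gd
      have : Real.exp (-(‖x‖ ^ 2 + ‖y‖ ^ 2) / 2) =
          Real.exp (-‖x‖ ^ 2 / 2) * Real.exp (-‖y‖ ^ 2 / 2) := by
        rw [← Real.exp_add]
        congr 1
        ring
      rw [this]
      ring
    rw [key, key, rot_norm h]
  refine ⟨(rot_cont a b).measurable, ?_⟩
  refine Measure.ext fun s hs => ?_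
  rw [Measure.map_apply (rot_cont a b).measurable hs, hprod,
    withDensity_apply _ ((rot_cont a b).measurable hs), withDensity_apply _ hs]
  rw [← (mp_vol h).setLIntegral_comp_preimage hs hdm]
  refine lintegral_congr fun p => ?_
  exact (hinv p).symm

/-! ### integrability -/

lemma int_pow (n m : ℕ) : Integrable (fun x : E n => (1 + ‖x‖) ^ m) (gam n) := by
  have hprob : IsProbabilityMeasure (gam n) := (Pool.Agent.W933.FVGM.main n).1
  have h1 : Integrable (fun x : E n => 2 ^ m * (1 + ‖x‖ ^ m)) (gam n) :=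
    ((integrable_const 1).add ((Pool.Agent.W933.FVGM.main n).2.1 m)).const_mul _
  refine Integrable.mono' h1 (by fun_prop) (Filter.Eventually.of_forall fun x => ?_)
  rw [Real.norm_of_nonneg (by positivity)]
  rcases le_total ‖x‖ 1 with h | h
  · calc (1 + ‖x‖) ^ m ≤ 2 ^ m := pow_le_pow_left₀ (by positivity) (by linarith) m
      _ ≤ 2 ^ m * (1 + ‖x‖ ^ m) := by
        have : (0 : ℝ) ≤ 2 ^ m * ‖x‖ ^ m := by positivity
        linarith
  · calc (1 + ‖x‖) ^ m ≤ (2 * ‖x‖) ^ m := pow_le_pow_left₀ (by positivity) (by linarith) m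
      _ = 2 ^ m * ‖x‖ ^ m := mul_pow _ _ _
      _ ≤ 2 ^ m * (1 + ‖x‖ ^ m) := by
        have : (0 : ℝ) ≤ 2 ^ m := by positivity
        linarith

lemma int_PB {n : ℕ} {F : E n → ℝ} (hm : Measurable F) (hF : PB F) : Integrable F (gam n) := by
  obtain ⟨C, m, hC, h⟩ := hF
  exact Integrable.mono' ((int_pow n m).const_mul C) hm.aestronglyMeasurable
    (Filter.Eventually.of_forall fun x => h x)

lemma PB_mul {n : ℕ} {F G : E n → ℝ} (hF : PB F) (hG : PB G) : PB fun x => F x * G x := by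
  obtain ⟨C, m, hC, h⟩ := hF
  obtain ⟨C', m', hC', h'⟩ := hG
  refine ⟨C * C', m + m', by positivity, fun x => ?_⟩
  rw [abs_mul, pow_add]
  refine (mul_le_mul (h x) (h' x) (abs_nonneg _) (by positivity)).trans (le_of_eq ?_)
  ring

lemma int_prod {n : ℕ} {H : E n × E n → ℝ} (hm : Measurable H) (C : ℝ) (m : ℕ)
    (h : ∀ p, |H p| ≤ C * ((1 + ‖p.1‖) ^ m * (1 + ‖p.2‖) ^ m)) :
    Integrable H ((gam n).prod (gam n)) := by
  have hprob : IsProbabilityMeasure (gam n) := (Pool.Agent.W933.FVGM.main n).1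
  exact Integrable.mono' (((int_pow n m).mul_prod (int_pow n m)).const_mul C)
    hm.aestronglyMeasurable (Filter.Eventually.of_forall h)

/-- growth of `F (α x + β y)` -/
lemma grow {n : ℕ} {C : ℝ} {m : ℕ} {F : E n → ℝ} (hC : 0 ≤ C)
    (h : ∀ x, |F x| ≤ C * (1 + ‖x‖) ^ m) {α β : ℝ} (hα : |α| ≤ 1) (hβ : |β| ≤ 1) (x y : E n) :
    |F (α • x + β • y)| ≤ C * ((1 + ‖x‖) ^ m * (1 + ‖y‖) ^ m) := by
  refine (h _).trans (mul_le_mul_of_nonneg_left ?_ hC)
  rw [← mul_pow]
  apply pow_le_pow_left₀ (by positivity)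
  have h1 := norm_add_le (α • x) (β • y)
  rw [norm_smul, norm_smul, Real.norm_eq_abs, Real.norm_eq_abs] at h1
  have hx := norm_nonneg x
  have hy := norm_nonneg y
  nlinarith [mul_le_mul_of_nonneg_right hα hx, mul_le_mul_of_nonneg_right hβ hy, mul_nonneg hx hy]

/-! ### the noise operator -/

/-- the noise operator -/
noncomputable def T {n : ℕ} (ρ : ℝ) (F : E n → ℝ) (x : E n) : ℝ :=
  ∫ y, F (ρ • x + √(1 - ρ ^ 2) • y) ∂(gam n)

lemma cor_eq {n : ℕ} (F : E n → ℝ) (ρ : ℝ) : cor F ρ = ∫ x, F x * T ρ F x ∂(gam n) := by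
  unfold cor T
  refine integral_congr_ae (Filter.Eventually.of_forall fun x => ?_)
  simp only
  rw [integral_const_mul]

lemma sq_le {ρ : ℝ} (h0 : 0 ≤ ρ) (h1 : ρ ≤ 1) : |ρ| ≤ 1 ∧ |√(1 - ρ ^ 2)| ≤ 1 ∧
    ρ ^ 2 + √(1 - ρ ^ 2) ^ 2 = 1 := by
  have h2 : 0 ≤ 1 - ρ ^ 2 := by nlinarith
  refine ⟨by rwa [abs_of_nonneg h0], ?_, by rw [Real.sq_sqrt h2]; ring⟩
  rw [abs_of_nonneg (Real.sqrt_nonneg _), Real.sqrt_le_one]
  nlinarith [sq_nonneg ρ]

lemma T_meas {n : ℕ} {F : E n → ℝ} (hm : Measurable F) (ρ : ℝ) : Measurable (T ρ F) := by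
  have hprob : IsProbabilityMeasure (gam n) := (Pool.Agent.W933.FVGM.main n).1
  have h1 : Measurable fun p : E n × E n => F (ρ • p.1 + √(1 - ρ ^ 2) • p.2) :=
    hm.comp (by fun_prop)
  exact (h1.stronglyMeasurable.integral_prod_right').measurable

lemma T_PB {n : ℕ} {F : E n → ℝ} (hF : PB F) {ρ : ℝ} (h0 : 0 ≤ ρ) (h1 : ρ ≤ 1) :
    PB (T ρ F) := by
  obtain ⟨C, m, hC, h⟩ := hF
  obtain ⟨e1, e2, _⟩ := sq_le h0 h1
  refine ⟨C * ∫ y, (1 + ‖y‖) ^ m ∂(gam n), m,
    mul_nonneg hC (integral_nonneg fun y => by positivity), fun x => ?_⟩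
  unfold T
  rw [← Real.norm_eq_abs]
  refine (norm_integral_le_of_norm_le ((int_pow n m).const_mul (C * (1 + ‖x‖) ^ m))
    (Filter.Eventually.of_forall fun y => ?_)).trans (le_of_eq ?_)
  · rw [Real.norm_eq_abs]
    refine (grow hC h e1 e2 x y).trans (le_of_eq ?_)
    ring
  · rw [integral_const_mul]
    ring

/-- self-adjointness -/
lemma T_adj {n : ℕ} {F G : E n → ℝ} (hFm : Measurable F) (hF : PB F) (hGm : Measurable G)
    (hG : PB G) {ρ : ℝ} (h0 : 0 ≤ ρ) (h1 : ρ ≤ 1) :
    ∫ x, G x * T ρ F x ∂(gam n) = ∫ x, T ρ G x * F x ∂(gam n) := by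
  have hprob : IsProbabilityMeasure (gam n) := (Pool.Agent.W933.FVGM.main n).1
  obtain ⟨e1, e2, e3⟩ := sq_le h0 h1
  obtain ⟨C, m, hC, h⟩ := hF
  obtain ⟨C', m', hC', h'⟩ := hG
  set s := √(1 - ρ ^ 2) with hs
  have hm1 : Measurable fun p : E n × E n => G p.1 * F (ρ • p.1 + s • p.2) :=
    (hGm.comp measurable_fst).mul (hFm.comp (by fun_prop))
  have hm2 : Measurable fun p : E n × E n => G (ρ • p.1 + s • p.2) * F p.1 :=
    (hGm.comp (by fun_prop)).mul (hFm.comp measurable_fst)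
  have hpow : ∀ (x : E n) (k l : ℕ), (1 + ‖x‖) ^ k ≤ (1 + ‖x‖) ^ (k + l) := fun x k l =>
    pow_le_pow_right₀ (by linarith [norm_nonneg x]) (Nat.le_add_right _ _)
  have hi1 : Integrable (fun p : E n × E n => G p.1 * F (ρ • p.1 + s • p.2))
      ((gam n).prod (gam n)) := by
    refine int_prod hm1 (C' * C) (m + m') fun p => ?_
    rw [abs_mul]
    refine (mul_le_mul (h' p.1) (grow hC h e1 e2 p.1 p.2) (abs_nonneg _) (by positivity)).trans ?_
    have : C' * (1 + ‖p.1‖) ^ m' * (C * ((1 + ‖p.1‖) ^ m * (1 + ‖p.2‖) ^ m)) =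
        C' * C * ((1 + ‖p.1‖) ^ (m + m') * (1 + ‖p.2‖) ^ m) := by
      rw [pow_add]
      ring
    rw [this]
    exact mul_le_mul_of_nonneg_left (mul_le_mul_of_nonneg_left (hpow p.2 m m') (by positivity))
      (by positivity)
  have hi2 : Integrable (fun p : E n × E n => G (ρ • p.1 + s • p.2) * F p.1)
      ((gam n).prod (gam n)) := by
    refine int_prod hm2 (C' * C) (m' + m) fun p => ?_
    rw [abs_mul]
    refine (mul_le_mul (grow hC' h' e1 e2 p.1 p.2) (h p.1) (abs_nonneg _) (by positivity)).trans ?_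
    have : C' * ((1 + ‖p.1‖) ^ m' * (1 + ‖p.2‖) ^ m') * (C * (1 + ‖p.1‖) ^ m) =
        C' * C * ((1 + ‖p.1‖) ^ (m' + m) * (1 + ‖p.2‖) ^ m') := by
      rw [pow_add]
      ring
    rw [this]
    exact mul_le_mul_of_nonneg_left (mul_le_mul_of_nonneg_left (hpow p.2 m' m) (by positivity))
      (by positivity)
  have hL : ∫ x, G x * T ρ F x ∂(gam n) =
      ∫ p, G p.1 * F (ρ • p.1 + s • p.2) ∂((gam n).prod (gam n)) := by
    rw [integral_prod _ hi1]
    refine integral_congr_ae (Filter.Eventually.of_forall fun x => ?_)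
    simp only
    rw [integral_const_mul]
    rfl
  have hR : ∫ x, T ρ G x * F x ∂(gam n) =
      ∫ p, G (ρ • p.1 + s • p.2) * F p.1 ∂((gam n).prod (gam n)) := by
    rw [integral_prod _ hi2]
    refine integral_congr_ae (Filter.Eventually.of_forall fun x => ?_)
    simp only
    rw [integral_mul_const]
    rfl
  rw [hL, hR]
  have hmap := (mp_rot (n := n) e3).map_eq
  have h5 := integral_map (μ := (gam n).prod (gam n)) (rot_cont (n := n) ρ s).measurable.aemeasurable
    (f := fun p : E n × E n => G p.1 * F (ρ • p.1 + s • p.2))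
    (by rw [hmap]; exact hm1.aestronglyMeasurable)
  rw [hmap] at h5
  rw [h5]
  refine integral_congr_ae (Filter.Eventually.of_forall fun p => ?_)
  simp only
  have h6 : ρ • (rot ρ s p).1 + s • (rot ρ s p).2 = p.1 := congrArg Prod.fst (rot_rot e3 p)
  rw [h6]
  rfl

/-- the semigroup property -/
lemma T_T {n : ℕ} {F : E n → ℝ} (hFm : Measurable F) (hF : PB F) {ρ σ : ℝ} (h0 : 0 ≤ ρ)
    (h1 : ρ ≤ 1) (g0 : 0 ≤ σ) (g1 : σ ≤ 1) (x : E n) : T ρ (T σ F) x = T (ρ * σ) F x := by
  have hprob : IsProbabilityMeasure (gam n) := (Pool.Agent.W933.FVGM.main n).1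
  obtain ⟨e1, e2, e3⟩ := sq_le h0 h1
  obtain ⟨f1, f2, f3⟩ := sq_le g0 g1
  have k0 : 0 ≤ ρ * σ := mul_nonneg h0 g0
  have k1 : ρ * σ ≤ 1 := mul_le_one₀ h1 g0 g1
  obtain ⟨k2, k3, k4⟩ := sq_le k0 k1
  obtain ⟨C, m, hC, h⟩ := hF
  unfold T
  set s := √(1 - ρ ^ 2) with hs
  set t := √(1 - σ ^ 2) with ht
  set u := √(1 - (ρ * σ) ^ 2) with hu
  have hm1 : Measurable fun p : E n × E n => F (σ • (ρ • x + s • p.1) + t • p.2) :=
    hFm.comp (by fun_prop)
  have hi1 : Integrable (fun p : E n × E n => F (σ • (ρ • x + s • p.1) + t • p.2))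
      ((gam n).prod (gam n)) := by
    refine int_prod hm1 (C * (1 + ‖x‖) ^ m) m fun p => ?_
    refine (grow hC h f1 f2 _ _).trans ?_
    have h5 : 1 + ‖ρ • x + s • p.1‖ ≤ (1 + ‖x‖) * (1 + ‖p.1‖) := by
      have h6 := norm_add_le (ρ • x) (s • p.1)
      rw [norm_smul, norm_smul, Real.norm_eq_abs, Real.norm_eq_abs] at h6
      have hx := norm_nonneg x
      have hy := norm_nonneg p.1
      nlinarith [mul_le_mul_of_nonneg_right e1 hx, mul_le_mul_of_nonneg_right e2 hy,
        mul_nonneg hx hy]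
    have h7 : (1 + ‖ρ • x + s • p.1‖) ^ m ≤ (1 + ‖x‖) ^ m * (1 + ‖p.1‖) ^ m := by
      rw [← mul_pow]
      exact pow_le_pow_left₀ (by positivity) h5 m
    calc C * ((1 + ‖ρ • x + s • p.1‖) ^ m * (1 + ‖p.2‖) ^ m) ≤
        C * (((1 + ‖x‖) ^ m * (1 + ‖p.1‖) ^ m) * (1 + ‖p.2‖) ^ m) := by gcongr
      _ = C * (1 + ‖x‖) ^ m * ((1 + ‖p.1‖) ^ m * (1 + ‖p.2‖) ^ m) := by ring
  have hL : ∫ y, ∫ z, F (σ • (ρ • x + s • y) + t • z) ∂(gam n) ∂(gam n) =
      ∫ p, F (σ • (ρ • x + s • p.1) + t • p.2) ∂((gam n).prod (gam n)) :=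
    (integral_prod _ hi1).symm
  rw [hL]
  by_cases hu0 : u = 0
  · -- then `ρ = σ = 1`
    have h5 : (ρ * σ) ^ 2 = 1 := by
      rw [hu0] at k4
      linarith
    have h6 : ρ * σ = 1 := by nlinarith
    have hρ : ρ = 1 := by nlinarith
    have hσ : σ = 1 := by nlinarith
    have hs0 : s = 0 := by rw [hs, hρ]; norm_num
    have ht0 : t = 0 := by rw [ht, hσ]; norm_num
    rw [hs0, ht0, hu0, hρ, hσ]
    simp
  · have hu1 : 0 < u := lt_of_le_of_ne (Real.sqrt_nonneg _) (Ne.symm hu0)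
    set a := σ * s / u with ha
    set b := t / u with hb
    have hab : a ^ 2 + b ^ 2 = 1 := by
      rw [ha, hb, div_pow, div_pow, ← add_div, div_eq_one_iff_eq (by positivity)]
      rw [mul_pow]
      have : s ^ 2 = 1 - ρ ^ 2 := by linarith
      have h8 : t ^ 2 = 1 - σ ^ 2 := by linarith
      have h9 : u ^ 2 = 1 - (ρ * σ) ^ 2 := by linarith
      rw [this, h8, h9]
      ring
    have hm2 : Measurable fun p : E n × E n => F ((ρ * σ) • x + u • p.1) := hFm.comp (by fun_prop)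
    have hmap := (mp_rot (n := n) hab).map_eq
    have h5 := integral_map (μ := (gam n).prod (gam n))
      (rot_cont (n := n) a b).measurable.aemeasurable
      (f := fun p : E n × E n => F ((ρ * σ) • x + u • p.1))
      (by rw [hmap]; exact hm2.aestronglyMeasurable)
    rw [hmap] at h5
    have h6 : ∀ p : E n × E n, F ((ρ * σ) • x + u • (rot a b p).1) =
        F (σ • (ρ • x + s • p.1) + t • p.2) := by
      intro p
      congr 1
      change (ρ * σ) • x + u • (a • p.1 + b • p.2) = σ • (ρ • x + s • p.1) + t • p.2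
      have e5 : u * a = σ * s := by rw [ha]; field_simp
      have e6 : u * b = t := by rw [hb]; field_simp
      rw [smul_add, smul_smul, smul_smul, e5, e6]
      module
    simp only [h6] at h5
    rw [← h5]
    have hi2 : Integrable (fun p : E n × E n => F ((ρ * σ) • x + u • p.1))
        ((gam n).prod (gam n)) := by
      refine int_prod hm2 (C * (1 + ‖x‖) ^ m) m fun p => ?_
      refine (grow hC h k2 k3 x p.1).trans ?_
      have h7 : (1 : ℝ) ≤ (1 + ‖p.2‖) ^ m := one_le_pow₀ (by linarith [norm_nonneg p.2])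
      have h8 : 0 ≤ C * (1 + ‖x‖) ^ m * (1 + ‖p.1‖) ^ m := by positivity
      nlinarith
    rw [integral_prod _ hi2]
    refine integral_congr_ae (Filter.Eventually.of_forall fun y => ?_)
    simp

lemma T_one {n : ℕ} (ρ : ℝ) (x : E n) : T ρ (fun _ => (1 : ℝ)) x = 1 := by
  have hprob : IsProbabilityMeasure (gam n) := (Pool.Agent.W933.FVGM.main n).1
  unfold T
  simp

/-- Cauchy-Schwarz -/
lemma cs {n : ℕ} {F G : E n → ℝ} (hFm : Measurable F) (hF : PB F) (hGm : Measurable G)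
    (hG : PB G) : (∫ x, F x * G x ∂(gam n)) ^ 2 ≤
      (∫ x, G x ^ 2 ∂(gam n)) * ∫ x, F x ^ 2 ∂(gam n) := by
  have i1 : Integrable (fun x => F x ^ 2) (gam n) := by
    have := int_PB (hFm.mul hFm) (PB_mul hF hF)
    refine this.congr (Filter.Eventually.of_forall fun x => ?_)
    simp only [Pi.mul_apply]
    ring
  have i2 : Integrable (fun x => G x ^ 2) (gam n) := by
    have := int_PB (hGm.mul hGm) (PB_mul hG hG)
    refine this.congr (Filter.Eventually.of_forall fun x => ?_)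
    simp only [Pi.mul_apply]
    ring
  have i3 : Integrable (fun x => F x * G x) (gam n) := int_PB (hFm.mul hGm) (PB_mul hF hG)
  have h1 : ∀ t : ℝ, 0 ≤ (∫ x, G x ^ 2 ∂(gam n)) * (t * t) +
      (2 * ∫ x, F x * G x ∂(gam n)) * t + ∫ x, F x ^ 2 ∂(gam n) := by
    intro t
    have h2 : (∫ x, G x ^ 2 ∂(gam n)) * (t * t) + (2 * ∫ x, F x * G x ∂(gam n)) * t +
        ∫ x, F x ^ 2 ∂(gam n) = ∫ x, (F x + t * G x) ^ 2 ∂(gam n) := by
      have e : (fun x => (F x + t * G x) ^ 2) =
          fun x => ((t * t) * G x ^ 2 + (2 * t) * (F x * G x)) + F x ^ 2 := by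
        funext x
        ring
      have e4 : Integrable (fun x => (t * t) * G x ^ 2 + (2 * t) * (F x * G x)) (gam n) :=
        (i2.const_mul _).add (i3.const_mul _)
      rw [e, integral_add e4 i1, integral_add (i2.const_mul _) (i3.const_mul _),
        integral_const_mul, integral_const_mul]
      ring
    rw [h2]
    exact integral_nonneg fun x => sq_nonneg _
  have h3 := discrim_le_zero h1
  unfold discrim at h3
  nlinarith

theorem main : NoiseCS := by
  intro n F hFm hF ρ h0 h1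
  have hprob : IsProbabilityMeasure (gam n) := (Pool.Agent.W933.FVGM.main n).1
  have hsq : ∀ r : ℝ, 0 ≤ r → r ≤ 1 → cor F (r * r) = ∫ x, T r F x ^ 2 ∂(gam n) := by
    intro r r0 r1
    rw [cor_eq]
    have e1 : ∀ x, T (r * r) F x = T r (T r F) x := fun x => (T_T hFm hF r0 r1 r0 r1 x).symm
    simp only [e1]
    rw [T_adj (T_meas hFm r) (T_PB hF r0 r1) hFm hF r0 r1]
    refine integral_congr_ae (Filter.Eventually.of_forall fun x => ?_)
    simp only
    ring
  have hTm := T_meas hFm ρ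
  have hTP := T_PB hF h0 h1
  have hF2m : Measurable fun x => F x * F x := hFm.mul hFm
  have hF2 : PB fun x => F x * F x := PB_mul hF hF
  refine ⟨?_, ?_, ?_⟩
  · have h2 := hsq (√ρ) (Real.sqrt_nonneg _) (by rw [Real.sqrt_le_one]; exact h1)
    rw [Real.mul_self_sqrt h0] at h2
    rw [h2]
    exact integral_nonneg fun x => sq_nonneg _
  · -- contraction
    have hJ : ∀ x, T ρ F x ^ 2 ≤ T ρ (fun x => F x * F x) x := by
      intro x
      obtain ⟨C, m, hC, h⟩ := hF
      obtain ⟨e1, e2, _⟩ := sq_le h0 h1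
      have hPBx : PB fun y => F (ρ • x + √(1 - ρ ^ 2) • y) := by
        refine ⟨C * (1 + ‖x‖) ^ m, m, by positivity, fun y => ?_⟩
        refine (grow hC h e1 e2 x y).trans (le_of_eq ?_)
        ring
      have hmx : Measurable fun y => F (ρ • x + √(1 - ρ ^ 2) • y) := hFm.comp (by fun_prop)
      have h2 := cs hmx hPBx (measurable_const (a := (1 : ℝ))) ⟨1, 0, by norm_num, fun _ => by simp⟩
      simp only [mul_one, one_pow, integral_const, probReal_univ, smul_eq_mul, one_mul] at h2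
      unfold T
      refine h2.trans (le_of_eq ?_)
      refine integral_congr_ae (Filter.Eventually.of_forall fun y => ?_)
      simp only
      ring
    have hPB1 : PB fun _ : E n => (1 : ℝ) := ⟨1, 0, by norm_num, fun _ => by simp⟩
    have h3 : ∫ x, T ρ (fun x => F x * F x) x ∂(gam n) = ∫ x, F x ^ 2 ∂(gam n) := by
      have h4 := T_adj hF2m hF2 (measurable_const (a := (1 : ℝ))) hPB1 h0 h1
      simp only [one_mul, T_one] at h4
      rw [h4]
      refine integral_congr_ae (Filter.Eventually.of_forall fun y => ?_)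
      simp only
      ring
    have i1 : Integrable (fun x => T ρ F x ^ 2) (gam n) := by
      refine (int_PB (hTm.mul hTm) (PB_mul hTP hTP)).congr (Filter.Eventually.of_forall fun x => ?_)
      simp only [Pi.mul_apply]
      ring
    have i2 : Integrable (T ρ (fun x => F x * F x)) (gam n) :=
      int_PB (T_meas hF2m ρ) (T_PB hF2 h0 h1)
    have i3 : Integrable (fun x => F x ^ 2) (gam n) := by
      refine (int_PB hF2m hF2).congr (Filter.Eventually.of_forall fun x => ?_)
      simp only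
      ring
    have h5 : ∫ x, T ρ F x ^ 2 ∂(gam n) ≤ ∫ x, F x ^ 2 ∂(gam n) := by
      rw [← h3]
      exact integral_mono i1 i2 hJ
    rw [cor_eq]
    have h6 : ∫ x, F x * T ρ F x ∂(gam n) ≤ ∫ x, (1 / 2) * (F x ^ 2 + T ρ F x ^ 2) ∂(gam n) := by
      refine integral_mono (int_PB (hFm.mul hTm) (PB_mul hF hTP)) ((i3.add i1).const_mul _)
        fun x => ?_
      simp only
      nlinarith [sq_nonneg (F x - T ρ F x)]
    rw [integral_const_mul, integral_add i3 i1] at h6
    linarith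
  · have h2 := hsq ρ h0 h1
    rw [pow_two ρ, h2, cor_eq]
    exact cs hFm hF hTm hTP

end Pool.Agent.Q26.FC.NCS
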