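import Pool.Agent.Q188.FC.StmG
import Pool.Agent.W933.FV.GM

/-!
# FC-NSM: the correlation for small `ρ`
-/

set_option autoImplicit false

open MeasureTheory

namespace Pool.Agent.Q26.FC.NSM

open Pool.Agent.W716.FV (E gam gd)
open Pool.Agent.W933.FVGM Pool.Agent.Q188.FC

/-! ### real inequalities -/

lemma exp_sub_one_abs (z : ℝ) : |Real.exp z - 1| ≤ |z| * Real.exp |z| := by
  have h0 := Real.add_one_le_exp z
  have h1 := Real.add_one_le_exp (-z)
  have h2 : Real.exp z * Real.exp (-z) = 1 := by rw [← Real.exp_add]; simp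
  have hp := Real.exp_pos z
  have hq := Real.exp_pos (-z)
  rcases le_total 0 z with h | h
  · rw [abs_of_nonneg h, abs_of_nonneg (by linarith)]
    nlinarith
  · rw [abs_of_nonpos h, abs_of_nonpos (by nlinarith)]
    have h3 : 1 ≤ Real.exp (-z) := by linarith
    nlinarith

lemma cosh_bound (z : ℝ) : |(Real.exp z + Real.exp (-z)) / 2 - 1| ≤ z ^ 2 * Real.exp |z| := by
  have h2 : Real.exp z * Real.exp (-z) = 1 := by rw [← Real.exp_add]; simp
  have key : ∀ t : ℝ, 0 ≤ t → |(Real.exp t + Real.exp (-t)) / 2 - 1| ≤ t ^ 2 * Real.exp t := by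
    intro t ht
    have h3 : Real.exp t * Real.exp (-t) = 1 := by rw [← Real.exp_add]; simp
    have h4 := exp_sub_one_abs t
    rw [abs_of_nonneg ht] at h4
    have h5 : (Real.exp t + Real.exp (-t)) / 2 - 1 = Real.exp (-t) * (Real.exp t - 1) ^ 2 / 2 := by
      linear_combination (-1 / 2 * Real.exp t + 1) * h3
    have h6 : (Real.exp t - 1) ^ 2 ≤ (t * Real.exp t) ^ 2 := by
      rw [← sq_abs (Real.exp t - 1)]
      exact pow_le_pow_left₀ (abs_nonneg _) h4 2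
    have hq := Real.exp_pos (-t)
    have hp := Real.exp_pos t
    rw [h5, abs_of_nonneg (by positivity)]
    have h7 : Real.exp (-t) * (Real.exp t - 1) ^ 2 ≤ Real.exp (-t) * (t * Real.exp t) ^ 2 :=
      mul_le_mul_of_nonneg_left h6 hq.le
    have h8 : Real.exp (-t) * (t * Real.exp t) ^ 2 = t ^ 2 * Real.exp t := by
      linear_combination (t ^ 2 * Real.exp t) * h3
    have h9 : 0 ≤ t ^ 2 * Real.exp t := by positivity
    linarith
  rcases le_total 0 z with h | h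
  · rw [abs_of_nonneg h]
    exact key z h
  · rw [abs_of_nonpos h]
    have h1 := key (-z) (by linarith)
    rw [neg_neg, add_comm (Real.exp (-z))] at h1
    rw [neg_sq] at h1
    exact h1

/-- the scheme of the two estimates -/
lemma scheme {c e q K N b : ℝ} (hc1 : 1 ≤ c) (hcK : c ≤ K) (he0 : 0 ≤ e) (he1 : e ≤ 1)
    (hb : |b - 1| ≤ q * N) (heN : 1 - e ≤ q * N) (hc : c - 1 ≤ q * K) (hq : 0 ≤ q)
    (hN : 1 ≤ N) : |c * e * b - 1| ≤ q * (3 * K * N) := by
  have h1 : c * e * b - 1 = c * e * (b - 1) + c * (e - 1) + (c - 1) := by ring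
  have hK : 0 ≤ K := by linarith
  have hqN : 0 ≤ q * N := by positivity
  have h2 : |c * e * (b - 1)| ≤ K * (q * N) := by
    rw [abs_mul, abs_of_nonneg (by positivity : 0 ≤ c * e)]
    refine mul_le_mul ?_ hb (abs_nonneg _) hK
    nlinarith
  have h3 : |c * (e - 1)| ≤ K * (q * N) := by
    rw [abs_mul, abs_of_nonneg (by linarith : 0 ≤ c), abs_of_nonpos (by linarith : e - 1 ≤ 0)]
    exact mul_le_mul hcK (by linarith) (by linarith) hK
  have h4 : |c - 1| ≤ K * (q * N) := by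
    rw [abs_of_nonneg (by linarith)]
    have : q * K * 1 ≤ q * K * N := mul_le_mul_of_nonneg_left hN (by positivity)
    nlinarith
  rw [h1]
  have h5 := abs_add_le (c * e * (b - 1) + c * (e - 1)) (c - 1)
  have h6 := abs_add_le (c * e * (b - 1)) (c * (e - 1))
  nlinarith

/-! ### the kernel -/

/-- the Mehler kernel -/
noncomputable def Mk {n : ℕ} (ρ : ℝ) (x w : E n) : ℝ :=
  (√(1 - ρ ^ 2))⁻¹ ^ n *
    Real.exp ((2 * ρ * inner ℝ x w - ρ ^ 2 * (‖x‖ ^ 2 + ‖w‖ ^ 2)) / (2 * (1 - ρ ^ 2)))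

lemma Mk_nonneg {n : ℕ} (ρ : ℝ) (x w : E n) : 0 ≤ Mk ρ x w := by
  unfold Mk
  positivity

lemma Mk_cont {n : ℕ} (ρ : ℝ) (x : E n) : Continuous (Mk ρ x) := by
  unfold Mk
  fun_prop

/-- substitution -/
lemma chg {n : ℕ} (F : E n → ℝ) {ρ : ℝ} (h0 : 0 ≤ ρ) (h1 : ρ < 1) (x : E n) :
    ∫ y, F (ρ • x + √(1 - ρ ^ 2) • y) ∂(gam n) = ∫ w, F w * Mk ρ x w ∂(gam n) := by
  have hs2 : 0 < 1 - ρ ^ 2 := by nlinarith
  have hs : 0 < √(1 - ρ ^ 2) := Real.sqrt_pos.2 hs2
  have hsq : √(1 - ρ ^ 2) ^ 2 = 1 - ρ ^ 2 := Real.sq_sqrt hs2.le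
  set s := √(1 - ρ ^ 2) with hsdef
  rw [int_gam, int_gam]
  let h : E n → ℝ := fun w => gd n (s⁻¹ • (w - ρ • x)) * F w
  have e1 : ∀ y : E n, gd n y * F (ρ • x + s • y) = h (ρ • x + s • y) := by
    intro y
    simp only [h]
    rw [add_sub_cancel_left, smul_smul, inv_mul_cancel₀ hs.ne', one_smul]
  simp only [e1]
  rw [Measure.integral_comp_smul volume (fun z => h (ρ • x + z)) s,
    integral_add_left_eq_self h (ρ • x), ← integral_smul]
  refine integral_congr_ae (Filter.Eventually.of_forall fun w => ?_)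
  simp only [h, finrank_euclideanSpace, Fintype.card_fin, smul_eq_mul]
  rw [abs_of_pos (by positivity), ← inv_pow]
  unfold gd Mk
  rw [← hsdef]
  have e2 : Real.exp (-‖s⁻¹ • (w - ρ • x)‖ ^ 2 / 2) = Real.exp (-‖w‖ ^ 2 / 2) *
      Real.exp ((2 * ρ * inner ℝ x w - ρ ^ 2 * (‖x‖ ^ 2 + ‖w‖ ^ 2)) / (2 * (1 - ρ ^ 2))) := by
    rw [← Real.exp_add]
    congr 1
    rw [norm_smul, mul_pow, norm_sub_sq_real, real_inner_comm, real_inner_smul_left,
      norm_smul, Real.norm_of_nonneg (inv_nonneg.2 hs.le), Real.norm_of_nonneg h0, inv_pow, hsq]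
    field_simp
    ring
  rw [e2]
  ring

/-- a bound for the normalising constant -/
lemma c_bound (n : ℕ) {ρ : ℝ} (h0 : 0 ≤ ρ) (h1 : ρ ≤ 1 / 16) :
    1 ≤ (√(1 - ρ ^ 2))⁻¹ ^ n ∧ (√(1 - ρ ^ 2))⁻¹ ^ n ≤ 1 + ρ ^ 2 * (2 * n * Real.exp (2 * n)) := by
  have hs2 : 0 < 1 - ρ ^ 2 := by nlinarith
  have hs : 0 < √(1 - ρ ^ 2) := Real.sqrt_pos.2 hs2
  have hsq : √(1 - ρ ^ 2) ^ 2 = 1 - ρ ^ 2 := Real.sq_sqrt hs2.le
  set s := √(1 - ρ ^ 2) with hsdef
  have hs1 : s ≤ 1 := by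
    rw [hsdef, Real.sqrt_le_one]
    nlinarith
  have hsinv : 1 ≤ s⁻¹ := (one_le_inv₀ hs).2 hs1
  refine ⟨one_le_pow₀ hsinv, ?_⟩
  have h2 : s⁻¹ ≤ 1 + 2 * ρ ^ 2 := by
    rw [inv_le_iff_one_le_mul₀ hs]
    have h3 : s ^ 2 ≤ s := by nlinarith
    have h4 : ρ ^ 2 ≤ 1 / 256 := by nlinarith
    nlinarith [mul_le_mul_of_nonneg_left h3 (by positivity : 0 ≤ 1 + 2 * ρ ^ 2)]
  have h3 : s⁻¹ ≤ Real.exp (2 * ρ ^ 2) := by
    have := Real.add_one_le_exp (2 * ρ ^ 2)
    linarith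
  have h4 : s⁻¹ ^ n ≤ Real.exp (n * (2 * ρ ^ 2)) := by
    rw [Real.exp_nat_mul]
    exact pow_le_pow_left₀ (by positivity) h3 n
  have h5 := exp_sub_one_abs (n * (2 * ρ ^ 2))
  have hn : (0 : ℝ) ≤ n := Nat.cast_nonneg n
  have hz : 0 ≤ n * (2 * ρ ^ 2) := by positivity
  rw [abs_of_nonneg hz] at h5
  have h6 := (le_abs_self _).trans h5
  have h7 : Real.exp (n * (2 * ρ ^ 2)) ≤ Real.exp (2 * n) := by
    apply Real.exp_le_exp.2
    have h4 : ρ ^ 2 ≤ 1 := by nlinarith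
    nlinarith
  have h8 : n * (2 * ρ ^ 2) * Real.exp (n * (2 * ρ ^ 2)) ≤ n * (2 * ρ ^ 2) * Real.exp (2 * n) :=
    mul_le_mul_of_nonneg_left h7 hz
  nlinarith

/-- the constant -/
noncomputable def KK (n : ℕ) : ℝ := 512 * ((1 + 2 * n) * Real.exp (2 * n))

lemma pow_exp (t : ℝ) (ht : 0 ≤ t) : t ≤ Real.exp t ∧ t ^ 2 ≤ 2 * Real.exp t := by
  constructor
  · linarith [Real.add_one_le_exp t]
  · have := Real.quadratic_le_exp_of_nonneg ht
    nlinarith

lemma bounds {n : ℕ} {ρ : ℝ} (h0 : 0 ≤ ρ) (h1 : ρ ≤ 1 / 16) (x w : E n) :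
    |Mk ρ x w - 1| ≤ ρ * (3 * KK n * Real.exp ((‖x‖ ^ 2 + ‖w‖ ^ 2) / 8)) ∧
    |(Mk ρ x w + Mk ρ (-x) w) / 2 - 1| ≤
      ρ ^ 2 * (3 * KK n * Real.exp ((‖x‖ ^ 2 + ‖w‖ ^ 2) / 8)) := by
  obtain ⟨hc1, hc2⟩ := c_bound n h0 h1
  have hρ2 : ρ ^ 2 ≤ 1 / 256 := by nlinarith
  have hs2 : 0 < 1 - ρ ^ 2 := by nlinarith
  set c := (√(1 - ρ ^ 2))⁻¹ ^ n with hc
  set N := ‖x‖ ^ 2 + ‖w‖ ^ 2 with hN
  have hN0 : 0 ≤ N := by positivity
  set A := N / (2 * (1 - ρ ^ 2)) with hA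
  set B := inner ℝ x w / (1 - ρ ^ 2) with hB
  have hA0 : 0 ≤ A := by positivity
  have hAN : A ≤ 2 / 3 * N := by
    rw [hA, div_le_iff₀ (by positivity)]
    nlinarith
  have hBA : |B| ≤ A := by
    rw [hB, hA, abs_div, abs_of_pos hs2, div_le_div_iff₀ hs2 (by positivity)]
    have h2 := abs_real_inner_le_norm x w
    have h3 : 2 * (‖x‖ * ‖w‖) ≤ N := by
      rw [hN]
      nlinarith [sq_nonneg (‖x‖ - ‖w‖)]
    nlinarith
  have hM : Mk ρ x w = c * Real.exp (-(ρ ^ 2 * A)) * Real.exp (ρ * B) := by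
    unfold Mk
    rw [← hc, ← hN, mul_assoc c, ← Real.exp_add]
    congr 2
    rw [hA, hB]
    field_simp
    ring
  have hM' : Mk ρ (-x) w = c * Real.exp (-(ρ ^ 2 * A)) * Real.exp (-(ρ * B)) := by
    unfold Mk
    rw [← hc, norm_neg, ← hN, mul_assoc c, ← Real.exp_add, inner_neg_left]
    congr 2
    rw [hA, hB]
    field_simp
    ring
  have hn : (0 : ℝ) ≤ n := Nat.cast_nonneg n
  have he2n : 1 ≤ Real.exp (2 * n) := Real.one_le_exp (by positivity)
  have hKK : KK n = 512 * ((1 + 2 * n) * Real.exp (2 * n)) := rfl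
  have hK1 : (1 + 2 * n) * Real.exp (2 * n) ≤ KK n := by
    rw [hKK]
    nlinarith [mul_nonneg (by positivity : 0 ≤ 1 + 2 * (n : ℝ)) (Real.exp_pos (2 * (n : ℝ))).le]
  have hc0 : c - 1 ≤ ρ ^ 2 * ((1 + 2 * n) * Real.exp (2 * n)) := by
    have : ρ ^ 2 * (2 * n * Real.exp (2 * n)) ≤ ρ ^ 2 * ((1 + 2 * n) * Real.exp (2 * n)) := by
      apply mul_le_mul_of_nonneg_left _ (sq_nonneg ρ)
      nlinarith
    linarith
  have hcK : c ≤ (1 + 2 * n) * Real.exp (2 * n) := by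
    have h3 : ρ ^ 2 * (2 * n * Real.exp (2 * n)) ≤ 2 * n * Real.exp (2 * n) := by
      have : 0 ≤ 2 * n * Real.exp (2 * n) := by positivity
      nlinarith
    nlinarith
  set e := Real.exp (-(ρ ^ 2 * A)) with he
  have he0 : 0 ≤ e := (Real.exp_pos _).le
  have he1 : e ≤ 1 := by
    rw [he, Real.exp_le_one_iff]
    have : 0 ≤ ρ ^ 2 * A := by positivity
    linarith
  have heA : 1 - e ≤ ρ ^ 2 * A := by
    have := Real.add_one_le_exp (-(ρ ^ 2 * A))
    linarith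
  -- `A` and the exponential
  have hN24 := pow_exp (N / 24) (by positivity)
  have hρA : ρ * A ≤ N / 24 := by nlinarith
  have hexpρ : Real.exp (ρ * A) ≤ Real.exp (N / 24) := Real.exp_le_exp.2 hρA
  have hA1 : A ≤ 16 * Real.exp (N / 24) := by linarith [hN24.1]
  have hA2 : A ^ 2 ≤ 512 * Real.exp (N / 24) := by
    have : A ^ 2 ≤ (16 * (N / 24)) ^ 2 := pow_le_pow_left₀ hA0 (by linarith) 2
    nlinarith [hN24.2]
  have hprod : Real.exp (N / 24) * Real.exp (N / 24) ≤ Real.exp (N / 8) := by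
    rw [← Real.exp_add]
    apply Real.exp_le_exp.2
    linarith
  have hE24 : 1 ≤ Real.exp (N / 24) := Real.one_le_exp (by positivity)
  have hE8 : 1 ≤ Real.exp (N / 8) := Real.one_le_exp (by positivity)
  have hE24' : Real.exp (N / 24) ≤ Real.exp (N / 8) := Real.exp_le_exp.2 (by linarith)
  have hb1 : |Real.exp (ρ * B) - 1| ≤ ρ * (512 * Real.exp (N / 8)) := by
    refine (exp_sub_one_abs _).trans ?_
    rw [abs_mul, abs_of_nonneg h0, mul_assoc]
    apply mul_le_mul_of_nonneg_left _ h0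
    have h3 : Real.exp (ρ * |B|) ≤ Real.exp (N / 24) :=
      (Real.exp_le_exp.2 (mul_le_mul_of_nonneg_left hBA h0)).trans hexpρ
    calc |B| * Real.exp (ρ * |B|) ≤ (16 * Real.exp (N / 24)) * Real.exp (N / 24) :=
          mul_le_mul (hBA.trans hA1) h3 (Real.exp_pos _).le (by positivity)
      _ = 16 * (Real.exp (N / 24) * Real.exp (N / 24)) := by ring
      _ ≤ 512 * Real.exp (N / 8) := by nlinarith
  have hb2 : |(Real.exp (ρ * B) + Real.exp (-(ρ * B))) / 2 - 1| ≤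
      ρ ^ 2 * (512 * Real.exp (N / 8)) := by
    refine (cosh_bound _).trans ?_
    rw [abs_mul, abs_of_nonneg h0, mul_pow, mul_assoc]
    apply mul_le_mul_of_nonneg_left _ (sq_nonneg ρ)
    have h3 : Real.exp (ρ * |B|) ≤ Real.exp (N / 24) :=
      (Real.exp_le_exp.2 (mul_le_mul_of_nonneg_left hBA h0)).trans hexpρ
    have h4 : B ^ 2 ≤ 512 * Real.exp (N / 24) := by
      rw [← sq_abs B]
      exact (pow_le_pow_left₀ (abs_nonneg _) hBA 2).trans hA2
    calc B ^ 2 * Real.exp (ρ * |B|) ≤ (512 * Real.exp (N / 24)) * Real.exp (N / 24) :=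
          mul_le_mul h4 h3 (Real.exp_pos _).le (by positivity)
      _ = 512 * (Real.exp (N / 24) * Real.exp (N / 24)) := by ring
      _ ≤ 512 * Real.exp (N / 8) := by nlinarith
  have hA512 : A ≤ 512 * Real.exp (N / 8) := by nlinarith
  have hρ21 : ρ ^ 2 ≤ ρ := by nlinarith
  have hX : 0 ≤ (1 + 2 * n) * Real.exp (2 * n) := by positivity
  constructor
  · rw [hM]
    have := scheme (c := c) (e := e) (q := ρ) (K := (1 + 2 * n) * Real.exp (2 * n))
      (N := 512 * Real.exp (N / 8)) (b := Real.exp (ρ * B)) hc1 hcK he0 he1 hb1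
      (heA.trans (by nlinarith [mul_le_mul hρ21 hA512 hA0 h0])) (hc0.trans (by nlinarith)) h0
      (by linarith)
    refine this.trans (le_of_eq ?_)
    rw [hKK]
    ring
  · have h3 : (Mk ρ x w + Mk ρ (-x) w) / 2 =
        c * e * ((Real.exp (ρ * B) + Real.exp (-(ρ * B))) / 2) := by
      rw [hM, hM']
      ring
    rw [h3]
    have := scheme (c := c) (e := e) (q := ρ ^ 2) (K := (1 + 2 * n) * Real.exp (2 * n))
      (N := 512 * Real.exp (N / 8)) (b := (Real.exp (ρ * B) + Real.exp (-(ρ * B))) / 2) hc1 hcK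
      he0 he1 hb2 (heA.trans (mul_le_mul_of_nonneg_left hA512 (sq_nonneg ρ))) hc0 (sq_nonneg ρ)
      (by linarith)
    refine this.trans (le_of_eq ?_)
    rw [hKK]
    ring

/-! ### integrals -/

lemma PB_exp {n : ℕ} {F : E n → ℝ} (hF : PB F) : ∃ C : ℝ, 0 ≤ C ∧
    ∀ x, |F x| ≤ C * Real.exp (‖x‖ ^ 2 / 8) := by
  obtain ⟨C, m, hC, h⟩ := hF
  refine ⟨C * (m.factorial * Real.exp 3), by positivity, fun x => (h x).trans ?_⟩
  rw [mul_assoc]
  apply mul_le_mul_of_nonneg_left _ hC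
  have h1 := Real.pow_div_factorial_le_exp (1 + ‖x‖) (by positivity) m
  rw [div_le_iff₀ (by positivity)] at h1
  refine h1.trans ?_
  rw [mul_comm, mul_assoc]
  apply mul_le_mul_of_nonneg_left _ (by positivity)
  rw [← Real.exp_add]
  apply Real.exp_le_exp.2
  nlinarith [sq_nonneg (‖x‖ - 4)]

lemma int_exp (n : ℕ) : Integrable (fun x : E n => Real.exp (‖x‖ ^ 2 / 4)) (gam n) := by
  rw [integrable_gam]
  have h := (integrable_gauss n (b := 1 / 4) (by norm_num)).const_mul ((√(2 * Real.pi))⁻¹ ^ n)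
  refine h.congr (Filter.Eventually.of_forall fun x => ?_)
  simp only
  unfold gd
  rw [mul_assoc, ← Real.exp_add]
  congr 2
  ring

theorem main : NoiseSmall := by
  intro n F hFm hF hF0
  have hprob : IsProbabilityMeasure (gam n) := (Pool.Agent.W933.FVGM.main n).1
  obtain ⟨C, hC, hFC⟩ := PB_exp hF
  set J := ∫ x, Real.exp (‖x‖ ^ 2 / 4) ∂(gam n) with hJ
  have hJ0 : 0 ≤ J := integral_nonneg fun x => (Real.exp_pos _).le
  have hFi : Integrable F (gam n) := by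
    refine Integrable.mono' ((int_exp n).const_mul C) hFm.aestronglyMeasurable
      (Filter.Eventually.of_forall fun x => ?_)
    refine (hFC x).trans (mul_le_mul_of_nonneg_left (Real.exp_le_exp.2 ?_) hC)
    nlinarith [sq_nonneg ‖x‖]
  have hKK : 0 ≤ KK n := by
    unfold KK
    positivity
  -- the inner integral, for a kernel near one
  have inner : ∀ (q : ℝ) (x : E n) (G : E n → ℝ), 0 ≤ q → Continuous G →
      (∀ w, |G w - 1| ≤ q * (3 * KK n * Real.exp ((‖x‖ ^ 2 + ‖w‖ ^ 2) / 8))) →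
      Integrable (fun w => F w * G w) (gam n) ∧
      |∫ w, F w * G w ∂(gam n)| ≤ q * (3 * KK n * C * J) * Real.exp (‖x‖ ^ 2 / 8) := by
    intro q x G hq hG hb
    have hbd : ∀ w, ‖F w * (G w - 1)‖ ≤
        (q * (3 * KK n * C) * Real.exp (‖x‖ ^ 2 / 8)) * Real.exp (‖w‖ ^ 2 / 4) := by
      intro w
      rw [norm_mul, Real.norm_eq_abs, Real.norm_eq_abs]
      refine (mul_le_mul (hFC w) (hb w) (abs_nonneg _) (by positivity)).trans (le_of_eq ?_)
      have e1 : Real.exp ((‖x‖ ^ 2 + ‖w‖ ^ 2) / 8) =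
          Real.exp (‖x‖ ^ 2 / 8) * Real.exp (‖w‖ ^ 2 / 8) := by
        rw [← Real.exp_add]
        congr 1
        ring
      have e2 : Real.exp (‖w‖ ^ 2 / 4) = Real.exp (‖w‖ ^ 2 / 8) * Real.exp (‖w‖ ^ 2 / 8) := by
        rw [← Real.exp_add]
        congr 1
        ring
      rw [e1, e2]
      ring
    have hint := (int_exp n).const_mul (q * (3 * KK n * C) * Real.exp (‖x‖ ^ 2 / 8))
    have hi1 : Integrable (fun w => F w * (G w - 1)) (gam n) :=
      Integrable.mono' hint (hFm.mul (hG.measurable.sub_const 1)).aestronglyMeasurable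
        (Filter.Eventually.of_forall hbd)
    have heq : (fun w => F w * G w) = fun w => F w * (G w - 1) + F w := by
      funext w
      ring
    refine ⟨by rw [heq]; exact hi1.add hFi, ?_⟩
    rw [heq, integral_add hi1 hFi, hF0, add_zero, ← Real.norm_eq_abs]
    refine (norm_integral_le_of_norm_le hint (Filter.Eventually.of_forall hbd)).trans (le_of_eq ?_)
    rw [integral_const_mul, ← hJ]
    ring
  -- the outer integral
  have outer : ∀ (q ρ : ℝ), 0 ≤ q → (∀ x, |∫ y, F (ρ • x + √(1 - ρ ^ 2) • y) ∂(gam n)| ≤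
      q * (3 * KK n * C * J) * Real.exp (‖x‖ ^ 2 / 8)) →
      cor F ρ ≤ (3 * KK n * C ^ 2 * J ^ 2) * q := by
    intro q ρ hq h
    unfold cor
    refine (le_abs_self _).trans ?_
    rw [← Real.norm_eq_abs]
    have hint := (int_exp n).const_mul (q * (3 * KK n * C ^ 2 * J))
    refine (norm_integral_le_of_norm_le hint (Filter.Eventually.of_forall fun x => ?_)).trans
      (le_of_eq ?_)
    · rw [integral_const_mul, norm_mul, Real.norm_eq_abs, Real.norm_eq_abs]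
      refine (mul_le_mul (hFC x) (h x) (abs_nonneg _) (by positivity)).trans (le_of_eq ?_)
      have e2 : Real.exp (‖x‖ ^ 2 / 4) = Real.exp (‖x‖ ^ 2 / 8) * Real.exp (‖x‖ ^ 2 / 8) := by
        rw [← Real.exp_add]
        congr 1
        ring
      rw [e2]
      ring
    · rw [integral_const_mul, ← hJ]
      ring
  refine ⟨3 * KK n * C ^ 2 * J ^ 2, 1 / 16, by norm_num, fun ρ h0 h1 => ⟨?_, fun hev => ?_⟩⟩
  · refine outer ρ ρ h0 fun x => ?_
    rw [chg F h0 (by linarith) x]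
    exact (inner ρ x (Mk ρ x) h0 (Mk_cont ρ x) fun w => (bounds h0 h1 x w).1).2
  · refine outer (ρ ^ 2) ρ (sq_nonneg ρ) fun x => ?_
    have hI1 := (inner ρ x (Mk ρ x) h0 (Mk_cont ρ x) fun w => (bounds h0 h1 x w).1).1
    have hI2 := (inner ρ (-x) (Mk ρ (-x)) h0 (Mk_cont ρ (-x)) fun w => (bounds h0 h1 (-x) w).1).1
    have hsymm : ∫ y, F (ρ • x + √(1 - ρ ^ 2) • y) ∂(gam n) =
        ∫ y, F (ρ • (-x) + √(1 - ρ ^ 2) • y) ∂(gam n) := by
      rw [int_gam, int_gam, ← integral_neg_eq_self]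
      refine integral_congr_ae (Filter.Eventually.of_forall fun y => ?_)
      simp only
      have e1 : gd n (-y) = gd n y := by
        unfold gd
        rw [norm_neg]
      have e2 : ρ • x + √(1 - ρ ^ 2) • (-y) = -(ρ • (-x) + √(1 - ρ ^ 2) • y) := by
        rw [smul_neg, smul_neg, neg_add, neg_neg]
      rw [e1, e2, hev]
    have havg : ∫ y, F (ρ • x + √(1 - ρ ^ 2) • y) ∂(gam n) =
        ∫ w, F w * ((Mk ρ x w + Mk ρ (-x) w) / 2) ∂(gam n) := by
      have h2 : ∫ w, F w * ((Mk ρ x w + Mk ρ (-x) w) / 2) ∂(gam n) =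
          ((∫ w, F w * Mk ρ x w ∂(gam n)) + ∫ w, F w * Mk ρ (-x) w ∂(gam n)) / 2 := by
        rw [← integral_add hI1 hI2, ← integral_div]
        refine integral_congr_ae (Filter.Eventually.of_forall fun w => ?_)
        simp only
        ring
      rw [h2, ← chg F h0 (by linarith) x, ← chg F h0 (by linarith) (-x), ← hsymm]
      ring
    rw [havg]
    exact (inner (ρ ^ 2) x (fun w => (Mk ρ x w + Mk ρ (-x) w) / 2) (sq_nonneg ρ)
      (((Mk_cont ρ x).add (Mk_cont ρ (-x))).div_const 2) fun w => (bounds h0 h1 x w).2).2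

end Pool.Agent.Q26.FC.NSM
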